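import Pool.Agent.TH706.DT.Main
import Pool.Agent.TH679.DB.Asym
import Pool.Agent.TH679.DB.Upper
import Pool.Agent.TH679.NC.Mat
import Pool.Agent.TH679.RW.Main

set_option autoImplicit false

/-!
# Programs with a stack for nondeterministic machines with `d` bits of memory
-/

namespace Pool.Agent.TH706.LB

open Filter
open Pool.Agent.TH679.DB
open Pool.Agent.TH679.NC (par par_path fi gates)
open Pool.Agent.TH679.RW (Trans card_word inE_le regs_const)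
open Pool.Agent.TH679.PL (kap)
open Pool.Agent.H564R3.PW (Instr exec)
open Pool.Agent.TH706.SK (SInstr sexec simulate_eps)
open scoped NNReal

/-- The (min,+) program `p` with a stack, whose constants are real numbers or infinity, writes into
register `o` the cost of a cheapest computation, for all costs of the transitions in the natural
numbers. -/
def Cheapest {T d : ℕ} {ρ : Type} [DecidableEq ρ]
    (p : List (SInstr (Tropical (WithTop ℝ)) (Trans T d) ρ)) (o : ρ) : Prop :=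
  ∀ w : Trans T d → ℕ,
    sexec (fun x => Tropical.trop (((w x : ℕ) : ℝ) : WithTop ℝ)) p o =
      pathSum (fun x => Tropical.trop (((w x : ℕ) : ℝ) : WithTop ℝ))

/-- The program `p` with a stack over the nonnegative reals computes the sum over all computations
of the products of the weights of the transitions. -/
def Counts {T d : ℕ} {ρ : Type} [DecidableEq ρ]
    (p : List (SInstr ℝ≥0 (Trans T d) ρ)) (o : ρ) : Prop :=
  ∀ w : Trans T d → ℝ≥0, sexec w p o = pathSum w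

/-- **Savitch**, with two registers and a stack -/
theorem savitch (R : Type) [CommSemiring R] (t d : ℕ) :
    ∃ p : List (SInstr R (Trans (2 ^ t) d) (Fin 2)),
      p.length < 4 * 2 ^ (1 + (t + 2) * (d + 1)) ∧ ∀ w, sexec w p 0 = pathSum w := by
  have hW : Fintype.card (Word 2 d) ≤ 2 ^ d := by rw [card_word]
  have hW1 : Word 2 d := fun _ => 0
  obtain ⟨p, h1, h2⟩ := Pool.Agent.TH706.DT.ssim
    (gates R t d (Shift (m := 2) (d := d))) (1 + (t + 2) * (d + 1)) (fi t 0, hW1, hW1, fi d 0)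
  exact ⟨p, h1, fun w => (h2 w).trans (par_path hW w hW1 hW1)⟩

/-- the elimination of the stack, together with the laws -/
theorem laws {T d n : ℕ} (hn : 1 ≤ n) (hd : 1 ≤ d) (hT : d * n ≤ T) {C : ℕ}
    (hC : ∀ (R X ρ : Type) [CommSemiring R]
      [Fintype ρ] [DecidableEq ρ] (p : List (SInstr R X ρ)), ∃ (S : ℕ) (z : Fin S)
      (q : List (Instr R X (ρ × Fin S))), S ≤ C * (Nat.log 2 p.length + 1) ∧
        (q.length : ℝ) ≤ C * (p.length : ℝ) ^ (1 + 1 : ℝ) ∧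
        ∀ w i, exec w q (i, z) = sexec w p i)
    (ρ : Type) [Fintype ρ] [DecidableEq ρ] (o : ρ) :
    (∀ p : List (SInstr (Tropical (WithTop ℝ)) (Trans T d) ρ), Cheapest p o →
      ∃ S l : ℕ, S ≤ C * (Nat.log 2 p.length + 1) ∧ (l : ℝ) ≤ C * (p.length : ℝ) ^ (1 + 1 : ℝ) ∧
        1 ≤ l ∧ 1 ≤ Fintype.card ρ * S ∧
        (2 ^ d) ^ kap n ≤ 2 * l * ((Nat.clog 2 l + 1) * (Fintype.card ρ * S)) ^ kap n) ∧
    (∀ p : List (SInstr ℝ≥0 (Trans T d) ρ), Counts p o →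
      ∃ S l : ℕ, S ≤ C * (Nat.log 2 p.length + 1) ∧ (l : ℝ) ≤ C * (p.length : ℝ) ^ (1 + 1 : ℝ) ∧
        1 ≤ l ∧ 1 ≤ Fintype.card ρ * S ∧
        (2 ^ d) ^ kap n ≤ 2 * l * ((Nat.clog 2 l + 1) * (Fintype.card ρ * S)) ^ kap n) := by
  have hK : 1 ≤ Fintype.card ρ := Fintype.card_pos_iff.2 ⟨o⟩
  refine ⟨fun p hp => ?_, fun p hp => ?_⟩
  · obtain ⟨S, z, q, k1, k2, k3⟩ := hC _ _ ρ p
    have hS : 1 ≤ S := by have := z.2; omega
    obtain ⟨g1, g2⟩ := lawMin hn (by norm_num) hd hT q (o, z) (fun w => (k3 _ _).trans (hp w))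
    rw [Fintype.card_prod, Fintype.card_fin] at g2
    exact ⟨S, q.length, k1, k2, g1, Nat.mul_pos hK hS, g2⟩
  · obtain ⟨S, z, q, k1, k2, k3⟩ := hC _ _ ρ p
    have hS : 1 ≤ S := by have := z.2; omega
    obtain ⟨g1, g2⟩ := lawSum hn (by norm_num) hd hT q (o, z) (fun w => (k3 _ _).trans (hp w))
    rw [Fintype.card_prod, Fintype.card_fin] at g2
    exact ⟨S, q.length, k1, k2, g1, Nat.mul_pos hK hS, g2⟩

theorem pow_real (d : ℕ) (a : ℝ) : ((2 ^ d : ℕ) : ℝ) ^ a = (2 : ℝ) ^ (a * d) := by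
  push_cast
  rw [← Real.rpow_natCast, ← Real.rpow_mul (by norm_num), mul_comm]

/-- many steps -/
theorem steps {ε : ℝ} (hε : 0 < ε) (hε1 : ε ≤ 1) : ∃ c : ℝ, 0 < c ∧ ∀ᶠ d : ℕ in atTop,
    ∀ T : ℕ, 2 ^ d ≤ T → ∀ (ρ : Type) [Fintype ρ] [DecidableEq ρ] (o : ρ),
      (Fintype.card ρ : ℝ) ≤ (2 : ℝ) ^ ((1 - ε) * d) →
      (∀ p : List (SInstr (Tropical (WithTop ℝ)) (Trans T d) ρ),
        Cheapest p o → (2 : ℝ) ^ (c * d ^ 2) ≤ p.length) ∧
      (∀ p : List (SInstr ℝ≥0 (Trans T d) ρ), Counts p o → (2 : ℝ) ^ (c * d ^ 2) ≤ p.length) := by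
  obtain ⟨ε', hε'⟩ : ∃ ε', ε' = ε / 2 := ⟨_, rfl⟩
  have hε0 : 0 < ε' := by rw [hε']; positivity
  have hε01 : ε' ≤ 1 := by rw [hε']; linarith
  obtain ⟨d₀, hd₀⟩ := exists_large ε' hε0
  obtain ⟨c, hc⟩ : ∃ c, c = ε' ^ 2 / 576 := ⟨_, rfl⟩
  have hc0 : 0 < c := by rw [hc]; positivity
  have hc1 : c ≤ 1 := by
    rw [hc]
    have : ε' ^ 2 ≤ 1 := by nlinarith
    linarith
  obtain ⟨C, hC⟩ := simulate_eps 1 one_pos
  refine ⟨c / 4, by positivity, ?_⟩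
  have hlarge : ∀ᶠ d : ℕ in atTop, d₀ ≤ (d : ℝ) :=
    tendsto_natCast_atTop_atTop.eventually_ge_atTop d₀
  have hpow : Tendsto (fun d : ℕ => 2 ^ d) atTop atTop :=
    tendsto_pow_atTop_atTop_of_one_lt (by norm_num)
  have hT' : ∀ᶠ d : ℕ in atTop, d * ⌈(2 : ℝ) ^ (ε' / 2 * d)⌉₊ ≤ 2 ^ d := by
    filter_upwards [hlarge, eventually_ge_atTop 1] with d hd hd1
    obtain ⟨g1, g2, g3, g4⟩ := hd₀ d hd
    have hX1 : (1 : ℝ) ≤ (2 : ℝ) ^ (ε' / 2 * d) := Real.one_le_rpow (by norm_num) (by positivity)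
    have h1 : (⌈(2 : ℝ) ^ (ε' / 2 * d)⌉₊ : ℝ) ≤ 2 * (2 : ℝ) ^ (ε' / 2 * d) := by
      have := Nat.ceil_lt_add_one (a := (2 : ℝ) ^ (ε' / 2 * d)) (by positivity)
      linarith
    have h2 : (d : ℝ) * 2 ≤ (2 : ℝ) ^ (ε' / 4 * d) := by
      have h0 : (0 : ℝ) ≤ d := Nat.cast_nonneg d
      nlinarith
    have h3 : ((d * ⌈(2 : ℝ) ^ (ε' / 2 * d)⌉₊ : ℕ) : ℝ) ≤ ((2 ^ d : ℕ) : ℝ) := by
      push_cast
      calc (d : ℝ) * (⌈(2 : ℝ) ^ (ε' / 2 * d)⌉₊ : ℝ) ≤ d * (2 * (2 : ℝ) ^ (ε' / 2 * d)) :=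
            mul_le_mul_of_nonneg_left h1 (Nat.cast_nonneg _)
        _ = d * 2 * (2 : ℝ) ^ (ε' / 2 * d) := by ring
        _ ≤ (2 : ℝ) ^ (ε' / 4 * d) * (2 : ℝ) ^ (ε' / 2 * d) :=
            mul_le_mul_of_nonneg_right h2 (by positivity)
        _ = (2 : ℝ) ^ (ε' / 4 * d + ε' / 2 * d) := (Real.rpow_add (by norm_num) _ _).symm
        _ ≤ (2 : ℝ) ^ (d : ℝ) := by
            apply Real.rpow_le_rpow_of_exponent_le (by norm_num)
            have h0 : (0 : ℝ) ≤ d := Nat.cast_nonneg d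
            nlinarith
        _ = 2 ^ d := Real.rpow_natCast _ _
    exact_mod_cast h3
  filter_upwards [hlarge, eventually_ge_atTop 1, hT',
    hpow.eventually (Pool.Agent.TH706.DT.asym hε hc0 hc1 C)] with d hd hd1 hdT has
  intro T hT ρ _ _ o hK
  obtain ⟨n, hn⟩ : ∃ n, n = ⌈(2 : ℝ) ^ (ε' / 2 * d)⌉₊ := ⟨_, rfl⟩
  rw [← hn] at hdT
  have hn1 : 1 ≤ n := by
    rw [hn, Nat.one_le_ceil_iff]
    positivity
  obtain ⟨N, hN⟩ : ∃ N, N = (d * n + 1) * 2 ^ d := ⟨_, rfl⟩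
  obtain ⟨s1, _⟩ := steps_ge hε0 hε01 hd₀ hd hn hN
  have hN2 : 2 ^ d ≤ N := by
    rw [hN]
    exact Nat.le_mul_of_pos_left _ (Nat.succ_pos _)
  have hN2' : ((2 ^ d : ℕ) : ℝ) ≤ N := by exact_mod_cast hN2
  have h20 : (0 : ℝ) < ((2 ^ d : ℕ) : ℝ) := by positivity
  have hlogN : (d : ℝ) ≤ Real.logb 2 N := by
    rw [Real.le_logb_iff_rpow_le (by norm_num) (lt_of_lt_of_le h20 hN2'), Real.rpow_natCast]
    exact_mod_cast hN2
  have hlog2 : (d : ℝ) ≤ Real.logb 2 ((2 ^ d : ℕ) : ℝ) := by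
    rw [Real.le_logb_iff_rpow_le (by norm_num) h20, Real.rpow_natCast]
    push_cast
    exact le_rfl
  have key : ∀ K L S l : ℕ, (K : ℝ) ≤ (2 : ℝ) ^ ((1 - ε) * d) → S ≤ C * (Nat.log 2 L + 1) →
      (l : ℝ) ≤ C * (L : ℝ) ^ (1 + 1 : ℝ) → 1 ≤ l →
      (2 ^ d) ^ kap n ≤ 2 * l * ((Nat.clog 2 l + 1) * (K * S)) ^ kap n →
      (2 : ℝ) ^ (c / 4 * d ^ 2) ≤ L := by
    intro K L S l hK hS hl hl1 hlaw
    have h1 := has d hd1 hlog2 K L S l (by rw [pow_real]; exact hK) hS hl (fun hKS => ?_)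
    · rw [pow_real] at h1
      refine le_trans (le_of_eq ?_) h1
      congr 1
      ring
    · have h2 := s1 (K * S) l hl1 ?_ hlaw
      · refine le_trans ?_ h2
        rw [← hc]
        calc ((2 ^ d : ℕ) : ℝ) ^ (c * (d : ℝ)) ≤ (N : ℝ) ^ (c * (d : ℝ)) :=
              Real.rpow_le_rpow h20.le hN2' (by positivity)
          _ ≤ (N : ℝ) ^ (c * Real.logb 2 N) := by
              apply Real.rpow_le_rpow_of_exponent_le
              · exact le_trans (by exact_mod_cast Nat.one_le_two_pow) hN2'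
              · exact mul_le_mul_of_nonneg_left hlogN hc0.le
      · refine hKS.trans ?_
        rw [hε']
        exact Real.rpow_le_rpow h20.le hN2' (by linarith)
  obtain ⟨l1, l2⟩ := laws hn1 hd1 (hdT.trans hT) hC ρ o
  refine ⟨fun p hp => ?_, fun p hp => ?_⟩
  · obtain ⟨S, l, a1, a2, a3, _, a4⟩ := l1 p hp
    exact key _ _ S l hK a1 a2 a3 a4
  · obtain ⟨S, l, a1, a2, a3, _, a4⟩ := l2 p hp
    exact key _ _ S l hK a1 a2 a3 a4

/-- many registers -/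
theorem regs (a ε : ℝ) (hε : 0 < ε) : ∃ C : ℕ, ∀ d ≥ C, ∀ T ≥ C * d,
    ∀ (ρ : Type) [Fintype ρ] [DecidableEq ρ] (o : ρ),
      (∀ p : List (SInstr (Tropical (WithTop ℝ)) (Trans T d) ρ), Cheapest p o →
        (p.length : ℝ) ≤ (2 : ℝ) ^ (a * d) → (2 : ℝ) ^ ((1 - ε) * d) < Fintype.card ρ) ∧
      (∀ p : List (SInstr ℝ≥0 (Trans T d) ρ), Counts p o →
        (p.length : ℝ) ≤ (2 : ℝ) ^ (a * d) → (2 : ℝ) ^ ((1 - ε) * d) < Fintype.card ρ) := by
  obtain ⟨a₀, ha₀⟩ : ∃ a₀, a₀ = max a 1 := ⟨_, rfl⟩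
  have ha1 : 1 ≤ a₀ := by rw [ha₀]; exact le_max_right _ _
  have haa : a ≤ a₀ := by rw [ha₀]; exact le_max_left _ _
  obtain ⟨ε', hε'⟩ : ∃ ε', ε' = min ε 1 := ⟨_, rfl⟩
  have hε0 : 0 < ε' := by rw [hε']; exact lt_min hε one_pos
  have hε1 : ε' ≤ 1 := by rw [hε']; exact min_le_right _ _
  have hεε : ε' ≤ ε := by rw [hε']; exact min_le_left _ _
  obtain ⟨q, d₁, hq, hmain⟩ := regs_const (a := 2 * a₀ + 1) (ε := ε' / 2) (by linarith)
    (by linarith) (by linarith)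
  obtain ⟨C, hC⟩ := simulate_eps 1 one_pos
  have e1 : ∀ᶠ d : ℕ in atTop, (C : ℝ) ≤ (2 : ℝ) ^ (d : ℝ) := by
    have h := (tendsto_pow_atTop_atTop_of_one_lt (r := (2 : ℝ)) (by norm_num)).eventually_ge_atTop
      (C : ℝ)
    filter_upwards [h] with d hd
    rwa [Real.rpow_natCast]
  have e2 : ∀ᶠ d : ℕ in atTop, (C : ℝ) * (a₀ * d + 1) ≤ (2 : ℝ) ^ (ε' / 2 * d) := by
    have hb : 0 < ε' / 2 * Real.log 2 := mul_pos (by linarith) (Real.log_pos (by norm_num))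
    have h1 : (fun x : ℝ => (C : ℝ) * (a₀ * x ^ 1 + x ^ 0)) =o[atTop]
        fun x => Real.exp (ε' / 2 * Real.log 2 * x) := by
      refine Asymptotics.IsLittleO.const_mul_left (Asymptotics.IsLittleO.add ?_ ?_) _
      · exact (isLittleO_pow_exp_pos_mul_atTop 1 hb).const_mul_left _
      · exact isLittleO_pow_exp_pos_mul_atTop 0 hb
    have h2 := (h1.comp_tendsto tendsto_natCast_atTop_atTop).bound (show (0 : ℝ) < 1 by norm_num)
    filter_upwards [h2] with d hd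
    simp only [Function.comp_apply, pow_one, pow_zero, one_mul] at hd
    rw [Real.norm_of_nonneg (Real.exp_nonneg _)] at hd
    refine ((le_abs_self _).trans hd).trans (le_of_eq ?_)
    rw [Real.rpow_def_of_pos (by norm_num)]
    congr 1
    ring
  obtain ⟨d₂, hd₂⟩ := eventually_atTop.1 (e1.and e2)
  refine ⟨q + d₁ + d₂ + 1, fun d hd T hT ρ _ _ o => ?_⟩
  have hdT : d * q ≤ T := by
    refine le_trans ?_ hT
    rw [mul_comm]
    exact Nat.mul_le_mul_right _ (by omega)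
  obtain ⟨f1, f2⟩ := hd₂ d (by omega)
  have key : ∀ K L S l : ℕ, S ≤ C * (Nat.log 2 L + 1) →
      (l : ℝ) ≤ C * (L : ℝ) ^ (1 + 1 : ℝ) → 1 ≤ l → 1 ≤ K * S →
      (2 ^ d) ^ kap q ≤ 2 * l * ((Nat.clog 2 l + 1) * (K * S)) ^ kap q →
      (L : ℝ) ≤ (2 : ℝ) ^ (a * d) → (2 : ℝ) ^ ((1 - ε) * d) < K := by
    intro K L S l hS hl hl1 hKS hlaw hL
    have hd0 : (0 : ℝ) ≤ d := Nat.cast_nonneg d
    have hL' : (L : ℝ) ≤ (2 : ℝ) ^ (a₀ * d) :=
      hL.trans (Real.rpow_le_rpow_of_exponent_le (by norm_num)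
        (mul_le_mul_of_nonneg_right haa hd0))
    have h1 := hmain d (by omega) (K * S) l hl1 hKS (by
      refine hl.trans ?_
      calc (C : ℝ) * (L : ℝ) ^ (1 + 1 : ℝ) ≤ (2 : ℝ) ^ (d : ℝ) * ((2 : ℝ) ^ (a₀ * d)) ^ (1 + 1 : ℝ) :=
            mul_le_mul f1 (Real.rpow_le_rpow (Nat.cast_nonneg _) hL' (by norm_num))
              (by positivity) (by positivity)
        _ = (2 : ℝ) ^ ((2 * a₀ + 1) * d) := by
            rw [← Real.rpow_mul (by norm_num), ← Real.rpow_add (by norm_num)]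
            congr 1
            ring) hlaw
    have hlog : (Nat.log 2 L : ℝ) ≤ a₀ * d := by
      rcases Nat.eq_zero_or_pos L with h0 | h0
      · rw [h0]
        simp only [Nat.log_zero_right, Nat.cast_zero]
        positivity
      · have h3 : (Nat.log 2 L : ℝ) ≤ Real.logb 2 L := by
          rw [Real.le_logb_iff_rpow_le (by norm_num) (by exact_mod_cast h0), Real.rpow_natCast]
          exact_mod_cast Nat.pow_log_le_self 2 h0.ne'
        have h4 : Real.logb 2 L ≤ a₀ * d := by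
          rw [Real.logb_le_iff_le_rpow (by norm_num) (by exact_mod_cast h0)]
          exact hL'
        exact h3.trans h4
    have hS' : (S : ℝ) ≤ (2 : ℝ) ^ (ε' / 2 * d) := by
      have h5 : (S : ℝ) ≤ C * ((Nat.log 2 L : ℝ) + 1) := by exact_mod_cast hS
      refine h5.trans (le_trans ?_ f2)
      apply mul_le_mul_of_nonneg_left _ (Nat.cast_nonneg _)
      linarith
    have hX : (0 : ℝ) < (2 : ℝ) ^ (ε' / 2 * d) := by positivity
    have h6 : (2 : ℝ) ^ ((1 - ε') * d) * (2 : ℝ) ^ (ε' / 2 * d) < K * (2 : ℝ) ^ (ε' / 2 * d) := by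
      rw [← Real.rpow_add (by norm_num)]
      have e3 : (1 - ε') * d + ε' / 2 * d = (1 - ε' / 2) * (d : ℝ) := by ring
      rw [e3]
      refine lt_of_lt_of_le h1 ?_
      push_cast
      exact mul_le_mul_of_nonneg_left hS' (Nat.cast_nonneg _)
    have h7 := lt_of_mul_lt_mul_right h6 hX.le
    refine lt_of_le_of_lt ?_ h7
    exact Real.rpow_le_rpow_of_exponent_le (by norm_num)
      (mul_le_mul_of_nonneg_right (by linarith) hd0)
  obtain ⟨l1, l2⟩ := laws hq (by omega) hdT hC ρ o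
  refine ⟨fun p hp => ?_, fun p hp => ?_⟩
  · obtain ⟨S, l, b1, b2, b3, b4, b5⟩ := l1 p hp
    exact key _ _ S l b1 b2 b3 b4 b5
  · obtain ⟨S, l, b1, b2, b3, b4, b5⟩ := l2 p hp
    exact key _ _ S l b1 b2 b3 b4 b5

end Pool.Agent.TH706.LB
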