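import Pool.Agent.Results.MP_e46137_lc.SparseShortestPaths
import Pool.Agent.TH706.DT.Main

set_option autoImplicit false

/-!
# Sparse graphs: the bounds with a stack
-/

namespace Pool.Agent.TH706.LB

open Filter
open Pool.Agent.TH679.DB
open Pool.Agent.H564R3.PW (Instr exec)
open Pool.Agent.TH706.SK (SInstr sexec simulate_eps)
open scoped NNReal

section

variable {W : Type} [Fintype W] [DecidableEq W] {T : ℕ} {ok : W → W → Prop} [DecidableRel ok]

/-- The (min,+) program `p` with a stack, whose constants are real numbers or infinity, writes into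
register `o` the length of a shortest path from the first to the last column, for all weights in the
natural numbers. -/
def StackMin {ρ : Type} [DecidableEq ρ]
    (p : List (SInstr (Tropical (WithTop ℝ)) (Edge T ok) ρ)) (o : ρ) : Prop :=
  ∀ w : Edge T ok → ℕ,
    sexec (fun x => Tropical.trop (((w x : ℕ) : ℝ) : WithTop ℝ)) p o =
      pathSum (fun x => Tropical.trop (((w x : ℕ) : ℝ) : WithTop ℝ))

/-- The program `p` with a stack over the nonnegative reals computes the sum over all paths from the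
first to the last column of the products of the weights. -/
def StackSum {ρ : Type} [DecidableEq ρ]
    (p : List (SInstr ℝ≥0 (Edge T ok) ρ)) (o : ρ) : Prop :=
  ∀ w : Edge T ok → ℝ≥0, sexec w p o = pathSum w

end

/-- many steps -/
theorem sparse_steps (ε : ℝ) (hε : 0 < ε) (hε1 : ε ≤ 1) : ∃ c : ℝ, 0 < c ∧ ∀ᶠ d : ℕ in atTop,
    ∀ T N : ℕ, T = d * ⌈(2 : ℝ) ^ (ε / 4 * d)⌉₊ → N = Fintype.card (Fin (T + 1) × Word 2 d) →
      ∀ (ρ : Type) [Fintype ρ] [DecidableEq ρ] (o : ρ),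
        (Fintype.card ρ : ℝ) ≤ (N : ℝ) ^ (1 - ε) →
        (∀ p : List (SInstr (Tropical (WithTop ℝ)) (Edge T (Shift (m := 2) (d := d))) ρ),
          StackMin p o → (N : ℝ) ^ (c * Real.logb 2 N) ≤ p.length) ∧
        (∀ p : List (SInstr ℝ≥0 (Edge T (Shift (m := 2) (d := d))) ρ),
          StackSum p o → (N : ℝ) ^ (c * Real.logb 2 N) ≤ p.length) := by
  obtain ⟨c, hc, hev⟩ := Pool.Agent.Results.MP_e46137_lc.SparseShortestPaths.result.2.2.2.1
    (ε / 2) (by positivity) (by linarith)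
  obtain ⟨c', hc'⟩ : ∃ c' : ℝ, c' = min c 1 := ⟨_, rfl⟩
  have hc0 : 0 < c' := by rw [hc']; exact lt_min hc one_pos
  have hc1 : c' ≤ 1 := by rw [hc']; exact min_le_right _ _
  have hcc : c' ≤ c := by rw [hc']; exact min_le_left _ _
  obtain ⟨C, hC⟩ := simulate_eps 1 one_pos
  obtain ⟨n₁, hn₁⟩ := eventually_atTop.1 (Pool.Agent.TH706.DT.asym hε hc0 hc1 C)
  have hpow : ∀ᶠ d : ℕ in atTop, n₁ ≤ 2 ^ d :=
    (tendsto_pow_atTop_atTop_of_one_lt (by norm_num : 1 < 2)).eventually_ge_atTop n₁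
  refine ⟨c' / 8, by positivity, ?_⟩
  filter_upwards [hev, hpow, eventually_ge_atTop 2] with d h1 h2 hd2 T N hT hN ρ _ _ o hK
  obtain ⟨h3, -⟩ := h1 T N (by rw [hT]; congr 3; ring_nf) hN
  have hcard : Fintype.card (Fin (T + 1) × Word 2 d) = (T + 1) * 2 ^ d := by
    rw [Fintype.card_prod, Fintype.card_fin,
      Pool.Agent.Results.MP_e46137_lc.SparseShortestPaths.card_word]
  have hNd : 2 ^ d ≤ N := by
    rw [hN, hcard]
    exact Nat.le_mul_of_pos_left _ (Nat.succ_pos _)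
  have hN4 : 4 ≤ N := by
    have : 2 ^ 2 ≤ 2 ^ d := Nat.pow_le_pow_right (by norm_num) hd2
    omega
  have hN0 : (0 : ℝ) < N := by
    have : 0 < N := by omega
    exact_mod_cast this
  have hN1 : (1 : ℝ) ≤ N := by
    have : 1 ≤ N := by omega
    exact_mod_cast this
  obtain ⟨D, hD⟩ : ∃ D, D = Nat.log 2 N := ⟨_, rfl⟩
  have hD2 : 2 ≤ D := by
    rw [hD]
    exact Nat.le_log_of_pow_le (by norm_num) hN4
  have hDl : (D : ℝ) ≤ Real.logb 2 N := by
    rw [hD, Real.le_logb_iff_rpow_le (by norm_num) hN0, Real.rpow_natCast]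
    exact_mod_cast Nat.pow_log_le_self 2 (by omega)
  have hDl2 : Real.logb 2 N ≤ 2 * D := by
    have e1 : N < 2 ^ (D + 1) := by rw [hD]; exact Nat.lt_pow_succ_log_self (by norm_num) N
    have e2 : Real.logb 2 N ≤ (D : ℝ) + 1 := by
      rw [Real.logb_le_iff_le_rpow (by norm_num) hN0]
      have e3 : ((D : ℝ) + 1) = ((D + 1 : ℕ) : ℝ) := by push_cast; ring
      rw [e3, Real.rpow_natCast]
      exact_mod_cast e1.le
    have e4 : (2 : ℝ) ≤ D := by exact_mod_cast hD2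
    linarith
  have has := hn₁ N (h2.trans hNd) D (by omega) hDl
  have key : ∀ L S l : ℕ, S ≤ C * (Nat.log 2 L + 1) → (l : ℝ) ≤ C * (L : ℝ) ^ (1 + 1 : ℝ) →
      (((Fintype.card ρ * S : ℕ) : ℝ) ≤ (N : ℝ) ^ (1 - ε / 2) →
        (N : ℝ) ^ (c * Real.logb 2 N) ≤ l) → (N : ℝ) ^ (c' / 8 * Real.logb 2 N) ≤ L := by
    intro L S l a1 a2 a3
    have a4 := has (Fintype.card ρ) L S l hK a1 a2 (fun a5 => by
      refine le_trans (Real.rpow_le_rpow_of_exponent_le hN1 ?_) (a3 a5)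
      calc c' * (D : ℝ) ≤ c * D := mul_le_mul_of_nonneg_right hcc (Nat.cast_nonneg _)
        _ ≤ c * Real.logb 2 N := mul_le_mul_of_nonneg_left hDl hc.le)
    refine le_trans (Real.rpow_le_rpow_of_exponent_le hN1 ?_) a4
    have := mul_le_mul_of_nonneg_left hDl2 (show 0 ≤ c' / 8 by positivity)
    linarith
  refine ⟨fun p hp => ?_, fun p hp => ?_⟩
  · obtain ⟨S, z, q, k1, k2, k3⟩ := hC _ _ ρ p
    refine key _ S q.length k1 k2 fun hKS => ?_
    refine (h3 (ρ × Fin S) (o, z) ?_).1 q fun w => (k3 _ _).trans (hp w)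
    rw [Fintype.card_prod, Fintype.card_fin]
    exact hKS
  · obtain ⟨S, z, q, k1, k2, k3⟩ := hC _ _ ρ p
    refine key _ S q.length k1 k2 fun hKS => ?_
    refine (h3 (ρ × Fin S) (o, z) ?_).2 q fun w => (k3 _ _).trans (hp w)
    rw [Fintype.card_prod, Fintype.card_fin]
    exact hKS

/-- many registers -/
theorem sparse_regs (a : ℝ) : ∃ C' : ℝ, ∀ᶠ d : ℕ in atTop, ∀ T N : ℕ,
    T = d * 2 ^ ⌈Real.sqrt d⌉₊ → N = Fintype.card (Fin (T + 1) × Word 2 d) →
      ∀ (ρ : Type) [Fintype ρ] [DecidableEq ρ] (o : ρ),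
        (∀ p : List (SInstr (Tropical (WithTop ℝ)) (Edge T (Shift (m := 2) (d := d))) ρ),
          StackMin p o → (p.length : ℝ) ≤ (N : ℝ) ^ a →
            (N : ℝ) / 2 ^ (C' * Real.sqrt (Real.logb 2 N)) ≤ Fintype.card ρ) ∧
        (∀ p : List (SInstr ℝ≥0 (Edge T (Shift (m := 2) (d := d))) ρ),
          StackSum p o → (p.length : ℝ) ≤ (N : ℝ) ^ a →
            (N : ℝ) / 2 ^ (C' * Real.sqrt (Real.logb 2 N)) ≤ Fintype.card ρ) := by
  obtain ⟨a₀, ha₀⟩ : ∃ a₀, a₀ = max a 1 := ⟨_, rfl⟩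
  have ha1 : 1 ≤ a₀ := by rw [ha₀]; exact le_max_right _ _
  have haa : a ≤ a₀ := by rw [ha₀]; exact le_max_left _ _
  obtain ⟨C₁, hev⟩ := Pool.Agent.Results.MP_e46137_lc.SparseShortestPaths.result.2.2.2.2
    (2 * a₀ + 1)
  obtain ⟨C, hC⟩ := simulate_eps 1 one_pos
  have e1 : ∀ᶠ x : ℝ in atTop, (C : ℝ) * (a₀ * x + 1) ≤ (2 : ℝ) ^ Real.sqrt x := by
    have hb : 0 < Real.log 2 := Real.log_pos (by norm_num)
    have h1 : (fun y : ℝ => (C : ℝ) * (a₀ * y ^ 2 + y ^ 0)) =o[atTop]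
        fun y => Real.exp (Real.log 2 * y) := by
      refine Asymptotics.IsLittleO.const_mul_left (Asymptotics.IsLittleO.add ?_ ?_) _
      · exact (isLittleO_pow_exp_pos_mul_atTop 2 hb).const_mul_left _
      · exact isLittleO_pow_exp_pos_mul_atTop 0 hb
    have h2 := (h1.comp_tendsto Real.tendsto_sqrt_atTop).bound (show (0 : ℝ) < 1 by norm_num)
    filter_upwards [h2, eventually_ge_atTop 0] with x hx hx0
    simp only [Function.comp_apply, pow_zero, one_mul, Real.sq_sqrt hx0] at hx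
    rw [Real.norm_of_nonneg (Real.exp_nonneg _)] at hx
    refine ((le_abs_self _).trans hx).trans (le_of_eq ?_)
    rw [Real.rpow_def_of_pos (by norm_num)]
  have e2 : ∀ᶠ x : ℝ in atTop, (C : ℝ) ≤ (2 : ℝ) ^ x := by
    filter_upwards [(tendsto_rpow_atTop_of_base_gt_one 2 (by norm_num)).eventually_ge_atTop
      (C : ℝ)] with x hx
    exact hx
  obtain ⟨x₁, hx₁⟩ := eventually_atTop.1 (e1.and e2)
  refine ⟨C₁ + 1, ?_⟩
  filter_upwards [hev, eventually_ge_atTop (max ⌈x₁⌉₊ 1)] with d h1 hd T N hT hN ρ _ _ o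
  obtain ⟨h3, -⟩ := h1 T N hT hN
  have hcard : Fintype.card (Fin (T + 1) × Word 2 d) = (T + 1) * 2 ^ d := by
    rw [Fintype.card_prod, Fintype.card_fin,
      Pool.Agent.Results.MP_e46137_lc.SparseShortestPaths.card_word]
  have hNd : 2 ^ d ≤ N := by
    rw [hN, hcard]
    exact Nat.le_mul_of_pos_left _ (Nat.succ_pos _)
  have hN0 : (0 : ℝ) < N := by
    have : 0 < N := lt_of_lt_of_le (by positivity) hNd
    exact_mod_cast this
  have hN1 : (1 : ℝ) ≤ N := by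
    have : 1 ≤ N := le_trans Nat.one_le_two_pow hNd
    exact_mod_cast this
  obtain ⟨l₀, hl₀⟩ : ∃ l₀, l₀ = Real.logb 2 N := ⟨_, rfl⟩
  have hdl : (d : ℝ) ≤ l₀ := by
    rw [hl₀, Real.le_logb_iff_rpow_le (by norm_num) hN0, Real.rpow_natCast]
    exact_mod_cast hNd
  have hxl : x₁ ≤ l₀ := by
    have e3 : x₁ ≤ (⌈x₁⌉₊ : ℝ) := Nat.le_ceil _
    have e4 : (⌈x₁⌉₊ : ℝ) ≤ d := by
      have : ⌈x₁⌉₊ ≤ d := (le_max_left _ _).trans hd
      exact_mod_cast this
    linarith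
  obtain ⟨f1, f2⟩ := hx₁ l₀ hxl
  have hNl : (N : ℝ) = (2 : ℝ) ^ l₀ := by
    rw [hl₀, Real.rpow_logb (by norm_num) (by norm_num) hN0]
  rw [← hl₀] at h3 ⊢
  have key : ∀ L S l : ℕ, S ≤ C * (Nat.log 2 L + 1) → (l : ℝ) ≤ C * (L : ℝ) ^ (1 + 1 : ℝ) →
      (L : ℝ) ≤ (N : ℝ) ^ a → ((l : ℝ) ≤ (N : ℝ) ^ (2 * a₀ + 1) →
        (N : ℝ) / 2 ^ (C₁ * Real.sqrt l₀) ≤ ((Fintype.card ρ * S : ℕ) : ℝ)) →
      (N : ℝ) / 2 ^ ((C₁ + 1) * Real.sqrt l₀) ≤ Fintype.card ρ := by
    intro L S l b1 b2 b3 b4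
    have hL' : (L : ℝ) ≤ (N : ℝ) ^ a₀ :=
      b3.trans (Real.rpow_le_rpow_of_exponent_le hN1 haa)
    have b5 := b4 (by
      refine b2.trans ?_
      calc (C : ℝ) * (L : ℝ) ^ (1 + 1 : ℝ) ≤ (N : ℝ) * ((N : ℝ) ^ a₀) ^ (1 + 1 : ℝ) := by
            apply mul_le_mul (by rw [hNl]; exact f2)
              (Real.rpow_le_rpow (Nat.cast_nonneg _) hL' (by norm_num)) (by positivity) hN0.le
        _ = (N : ℝ) ^ (2 * a₀ + 1) := by
            rw [← Real.rpow_mul hN0.le]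
            nth_rewrite 1 [← Real.rpow_one (N : ℝ)]
            rw [← Real.rpow_add hN0]
            congr 1
            ring)
    have hlog : (Nat.log 2 L : ℝ) ≤ a₀ * l₀ := by
      rcases Nat.eq_zero_or_pos L with h0 | h0
      · rw [h0]
        simp only [Nat.log_zero_right, Nat.cast_zero]
        have : 0 ≤ l₀ := le_trans (Nat.cast_nonneg d) hdl
        positivity
      · have h3 : (Nat.log 2 L : ℝ) ≤ Real.logb 2 L := by
          rw [Real.le_logb_iff_rpow_le (by norm_num) (by exact_mod_cast h0), Real.rpow_natCast]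
          exact_mod_cast Nat.pow_log_le_self 2 h0.ne'
        have h4 : Real.logb 2 L ≤ a₀ * l₀ := by
          rw [Real.logb_le_iff_le_rpow (by norm_num) (by exact_mod_cast h0)]
          refine hL'.trans (le_of_eq ?_)
          rw [hNl, ← Real.rpow_mul (by norm_num), mul_comm]
        exact h3.trans h4
    have hS' : (S : ℝ) ≤ (2 : ℝ) ^ Real.sqrt l₀ := by
      have h5 : (S : ℝ) ≤ C * ((Nat.log 2 L : ℝ) + 1) := by exact_mod_cast b1
      refine h5.trans (le_trans ?_ f1)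
      apply mul_le_mul_of_nonneg_left _ (Nat.cast_nonneg _)
      linarith
    rw [div_le_iff₀ (by positivity)] at b5 ⊢
    refine b5.trans ?_
    have e5 : (2 : ℝ) ^ ((C₁ + 1) * Real.sqrt l₀) =
        (2 : ℝ) ^ (C₁ * Real.sqrt l₀) * (2 : ℝ) ^ Real.sqrt l₀ := by
      rw [← Real.rpow_add (by norm_num)]
      congr 1
      ring
    rw [e5]
    push_cast
    calc (Fintype.card ρ : ℝ) * S * (2 : ℝ) ^ (C₁ * Real.sqrt l₀) =
          (Fintype.card ρ * (2 : ℝ) ^ (C₁ * Real.sqrt l₀)) * S := by ring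
      _ ≤ (Fintype.card ρ * (2 : ℝ) ^ (C₁ * Real.sqrt l₀)) * (2 : ℝ) ^ Real.sqrt l₀ :=
          mul_le_mul_of_nonneg_left hS' (by positivity)
      _ = _ := by ring
  refine ⟨fun p hp hL => ?_, fun p hp hL => ?_⟩
  · obtain ⟨S, z, q, k1, k2, k3⟩ := hC _ _ ρ p
    refine key _ S q.length k1 k2 hL fun hl => ?_
    have h5 := (h3 (ρ × Fin S) (o, z)).1 q (fun w => (k3 _ _).trans (hp w)) hl
    rwa [Fintype.card_prod, Fintype.card_fin] at h5
  · obtain ⟨S, z, q, k1, k2, k3⟩ := hC _ _ ρ p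
    refine key _ S q.length k1 k2 hL fun hl => ?_
    have h5 := (h3 (ρ × Fin S) (o, z)).2 q (fun w => (k3 _ _).trans (hp w)) hl
    rwa [Fintype.card_prod, Fintype.card_fin] at h5

end Pool.Agent.TH706.LB
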